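import Pool.Agent.Work.MP_64ea0f_cs.InterfaceE

set_option autoImplicit false

/-! # Block YJ6: Smith theory for the cubing of the intersection of walls -/

namespace Pool.CS

namespace YJ6

variable (D : Rd) (H : Subgroup D.W)

lemma ρmul (v u : D.W) (φ : D.V) : D.ρ (v * u) φ = D.ρ v (D.ρ u φ) := by
  rw [map_mul, Module.End.mul_apply]

lemma ρone (φ : D.V) : D.ρ 1 φ = φ := by
  rw [map_one, Module.End.one_apply]

lemma ρinv (v : D.W) (φ : D.V) : D.ρ v⁻¹ (D.ρ v φ) = φ := by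
  rw [← ρmul, inv_mul_cancel, ρone]

lemma ρinj (v : D.W) {φ ψ : D.V} (h : D.ρ v φ = D.ρ v ψ) : φ = ψ := by
  rw [← ρinv D v φ, h, ρinv]

lemma ρRt (v : D.W) {φ : D.V} (h : φ ∈ D.Rt) : D.ρ v φ ∈ D.Rt := by
  obtain ⟨w, s, rfl⟩ := h
  exact ⟨v * w, s, (ρmul D v w _).symm⟩

lemma lab_self (φ : D.V) : φ ∈ D.lab H φ := ⟨1, one_mem _, Or.inl (ρone D φ).symm⟩

lemma lab_neg {φ ψ : D.V} (h : ψ ∈ D.lab H φ) : -ψ ∈ D.lab H φ := by
  obtain ⟨g, hg, h | h⟩ := h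
  · exact ⟨g, hg, Or.inr (by rw [h])⟩
  · exact ⟨g, hg, Or.inl (by rw [h, neg_neg])⟩

lemma lab_symm {φ ψ : D.V} (h : ψ ∈ D.lab H φ) : φ ∈ D.lab H ψ := by
  obtain ⟨g, hg, h | h⟩ := h
  · exact ⟨g⁻¹, inv_mem hg, Or.inl (by rw [h, ρinv])⟩
  · exact ⟨g⁻¹, inv_mem hg, Or.inr (by rw [h, map_neg, ρinv, neg_neg])⟩

lemma lab_trans {φ ψ χ : D.V} (h : ψ ∈ D.lab H φ) (h' : χ ∈ D.lab H ψ) : χ ∈ D.lab H φ := by
  obtain ⟨g, hg, h⟩ := h
  obtain ⟨g', hg', h'⟩ := h'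
  refine ⟨g' * g, mul_mem hg' hg, ?_⟩
  rw [ρmul]
  rcases h with h | h <;> rcases h' with h' | h' <;> rw [h', h] <;> simp

lemma lab_eq {φ ψ : D.V} (h : ψ ∈ D.lab H φ) : D.lab H φ = D.lab H ψ := by
  ext χ
  exact ⟨fun h' => lab_trans D H (lab_symm D H h) h', fun h' => lab_trans D H h h'⟩

lemma lb_eq {a : D.Lb H} {ψ : D.V} (h : ψ ∈ a.1) : a.1 = D.lab H ψ := by
  obtain ⟨φ, -, hφ⟩ := a.2
  rw [hφ] at h ⊢
  exact lab_eq D H h

lemma lab_image (hH : H.Normal) (n : D.W) (φ : D.V) :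
    D.ρ n '' D.lab H φ = D.lab H (D.ρ n φ) := by
  ext χ
  constructor
  · rintro ⟨ψ, ⟨g, hg, h⟩, rfl⟩
    refine ⟨n * g * n⁻¹, hH.conj_mem g hg n, ?_⟩
    have e : D.ρ (n * g * n⁻¹) (D.ρ n φ) = D.ρ n (D.ρ g φ) := by
      rw [← ρmul, ← ρmul]
      congr 1
      group
    rcases h with h | h
    · left; rw [h, e]
    · right; rw [h, map_neg, e]
  · rintro ⟨g, hg, h⟩
    have e : D.ρ n (D.ρ (n⁻¹ * g * n) φ) = D.ρ g (D.ρ n φ) := by
      rw [← ρmul, ← ρmul]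
      congr 1
      group
    have hg' : n⁻¹ * g * n ∈ H := by
      have := hH.conj_mem g hg n⁻¹
      rwa [inv_inv] at this
    rcases h with h | h
    · exact ⟨_, ⟨_, hg', Or.inl rfl⟩, by rw [h, e]⟩
    · exact ⟨_, ⟨_, hg', Or.inr rfl⟩, by rw [h, map_neg, e]⟩

/-- the action on labels -/
@[instance_reducible]
noncomputable def lbAct (hH : H.Normal) : MulAction D.W (D.Lb H) where
  smul n a := ⟨D.ρ n '' a.1, by
    obtain ⟨φ, hφ, ha⟩ := a.2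
    exact ⟨D.ρ n φ, ρRt D n hφ, by rw [ha, lab_image D H hH]⟩⟩
  one_smul a := by
    apply Subtype.ext
    change D.ρ 1 '' a.1 = a.1
    ext χ
    constructor
    · rintro ⟨ψ, hψ, rfl⟩
      rw [ρone]
      exact hψ
    · intro h
      exact ⟨χ, h, ρone D χ⟩
  mul_smul m n a := by
    apply Subtype.ext
    change D.ρ (m * n) '' a.1 = D.ρ m '' (D.ρ n '' a.1)
    rw [Set.image_image]
    exact Set.image_congr fun φ _ => ρmul D m n φ

end YJ6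

open YJ6 in
/-- **YJ6** -/
theorem yj6_thm : Stmt_YJ1 → Stmt_YJ3 → Stmt_YJ4 → Stmt_YJ5 → Stmt_DEV → Stmt_LSX → Stmt_NRM →
    Stmt_SMT → Stmt_BAS → Stmt_VX1 → Stmt_VX2 → Stmt_VX3 → Stmt_LBF → Stmt_YJ6 := by
  intro hYJ1 hYJ3 hYJ4 hYJ5 hDEV hLSX hNRM hSMT hBAS hVX1 hVX2 hVX3 hLBF D hAF H hDeep J hJ p hp
    M hMH hMn hMf
  classical
  obtain ⟨-, -, -, -, Binv, -, -, -, negRt, -, -, -, -, -, -, -⟩ := hBAS D
  obtain ⟨-, vact, vone, vmul, -, -, -, -, vneg, -, vsub⟩ := hVX1 D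
  obtain ⟨y1a, y1b, -, y1d⟩ := hYJ1 D J hJ
  obtain ⟨-, -, -, n1, ninv, nmul, -⟩ := hNRM D J
  obtain ⟨⟨L, hL⟩, y4⟩ := hYJ4 D H hDeep J hJ
  obtain ⟨y4a, y4b⟩ := y4 L hL
  obtain ⟨⟨L', hL'⟩, -⟩ := hLSX D H hDeep
  obtain ⟨b, κ, c, hdev, hcinj⟩ := hDEV D H hDeep L' hL'
  have hΛ : Finite (D.Lb H) := hLBF D H hDeep.fin
  let N : Subgroup D.W :=
    { carrier := D.NJ J
      one_mem' := n1
      mul_mem' := fun {a b} ha hb => nmul a ha b hb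
      inv_mem' := fun {a} ha => ninv a ha }
  let aL : MulAction D.W (D.Lb H) := lbAct D H hDeep.nor
  let aY : MulAction N (D.YT J) :=
    { smul := fun n x => ⟨D.act n.1 x.1, y1b n.1 n.2 x.1 x.2⟩
      one_smul := fun x => Subtype.ext (vone x.1)
      mul_smul := fun a b x => Subtype.ext (vmul a.1 b.1 x.1) }
  have hfact : Fact p.Prime := ⟨hp⟩
  let N0 : Subgroup N := H.subgroupOf N
  let c' : N0 →* RC (D.lg H) := c.comp
    { toFun := fun m => ⟨m.1.1, Subgroup.mem_subgroupOf.1 m.2⟩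
      map_one' := rfl
      map_mul' := fun _ _ => rfl }
  let κ' : D.YT J → RC (D.lg H) := fun x => κ ⟨x.1, x.2.1⟩
  let 𝓜 : Set (Subgroup N) := {K | ∃ K' : Subgroup D.W, K' ≤ H ∧ K'.Normal ∧ K'.FiniteIndex ∧
    K = K'.subgroupOf N}
  have hsmul1 : ∀ (n : N) (a : D.Lb H), (n • a).1 = D.ρ n.1 '' a.1 := fun n a => rfl
  have hsmul2 : ∀ (n : N) (y : D.YT J), (n • y).1 = D.act n.1 y.1 := fun n y => rfl
  -- fixed cubes
  have hfix : ∀ n : N, n ^ p = 1 → HasFix (D.lg H) L n := by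
    intro n hn
    obtain ⟨x, A, hx, -, hAmn, hAcr, hAJ, hAn, hxA⟩ := hYJ5 D J hJ n.1 n.2
      ⟨p, hp.pos, congrArg Subtype.val hn⟩
    have hI : ∀ a : D.Lb H, a ∈ {a : D.Lb H | ∃ ψ ∈ A, ψ ∈ a.1} →
        n • a ∈ {a : D.Lb H | ∃ ψ ∈ A, ψ ∈ a.1} := by
      rintro a ⟨ψ, hψ, hψa⟩
      rcases hAn ψ hψ with h | h
      · exact ⟨_, h, ⟨ψ, hψa, rfl⟩⟩
      · refine ⟨_, h, ⟨-ψ, ?_, map_neg _ _⟩⟩
        rw [lb_eq D H hψa]
        exact lab_neg D H (lab_self D H ψ)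
    have hIpow : ∀ j : ℕ, ∀ a : D.Lb H, a ∈ {a : D.Lb H | ∃ ψ ∈ A, ψ ∈ a.1} →
        n ^ j • a ∈ {a : D.Lb H | ∃ ψ ∈ A, ψ ∈ a.1} := by
      intro j
      induction j with
      | zero => intro a ha; rw [pow_zero, one_smul]; exact ha
      | succ j ih =>
        intro a ha
        rw [pow_succ', mul_smul]
        exact hI _ (ih a ha)
    refine ⟨⟨x, hx⟩, {a | ∃ ψ ∈ A, ψ ∈ a.1}, ?_, ?_, ?_, ?_⟩
    · rintro a ⟨ψ, hψ, hψa⟩ b ⟨χ, hχ, hχb⟩ hab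
      refine ⟨hab, ψ, hψa, χ, hχb, hAcr ψ hψ χ hχ ?_⟩
      rintro rfl
      apply hab
      apply Subtype.ext
      rw [lb_eq D H hψa, lb_eq D H hχb]
    · rintro a ⟨ψ, hψ, hψa⟩ h
      have h1 := (hL a ⟨x, hx⟩).1 ψ (hAmn ψ hψ).1 hψa
        ((y1d x hx ψ (hAmn ψ hψ).1).2 (fun φ hφ hφJ => hAJ ψ hψ φ hφ hφJ))
      rw [h] at h1
      exact (hVX2 D x hx.1 ψ (hAmn ψ hψ).1).2.2.2.1 h1.symm
    · intro a
      refine ⟨hI a, fun h => ?_⟩
      have h1 := hIpow (p - 1) _ h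
      rw [← mul_smul, ← pow_succ, Nat.sub_add_cancel hp.one_le, hn, one_smul] at h1
      exact h1
    · have hz : D.Vx (D.act n.1 x) := vact x hx.1 n.1
      have claim : ∀ j, ∀ y' : D.YT J, (∀ ψ ∈ y'.1, ψ ∉ D.act n.1 x → D.Mn y'.1 ψ ∧ ψ ∈ A) →
          (y'.1 \ D.act n.1 x).ncard = j →
          ∃ γ ∈ rsub (D.lg H) {a | ∃ ψ ∈ A, ψ ∈ a.1}, (L.r y' γ).1 = D.act n.1 x := by
        intro j
        induction j with
        | zero =>
          intro y' hy' hcard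
          have h1 := vsub y'.1 y'.2.1 _ hz
          have h2 := (Set.ncard_eq_zero h1.1).1 hcard
          refine ⟨1, one_mem _, ?_⟩
          rw [LS.r_one]
          exact h1.2.2 (Set.sdiff_eq_empty.1 h2)
        | succ j ih =>
          intro y' hy' hcard
          have h1 := vsub y'.1 y'.2.1 _ hz
          have hne : (y'.1 \ D.act n.1 x).Nonempty := by
            rw [← Set.ncard_pos h1.1]
            omega
          obtain ⟨ψ, hψy, hψz⟩ := hne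
          obtain ⟨hψm, hψA⟩ := hy' ψ hψy hψz
          have hψR : ψ ∈ D.Rt := y'.2.1.sub hψy
          have hψz' : -ψ ∈ D.act n.1 x := (hz.tot ψ hψR).resolve_left hψz
          let a : D.Lb H := ⟨D.lab H ψ, ψ, hψR, rfl⟩
          have hτ : (L.τ a y').1 = D.fl y'.1 ψ := (hL a y').1 ψ hψm (lab_self D H ψ)
            ((y1d y'.1 y'.2 ψ hψm).2 (fun φ hφ hφJ => hAJ ψ hψA φ hφ hφJ))
          have hset : (L.τ a y').1 \ D.act n.1 x = (y'.1 \ D.act n.1 x) \ {ψ} := by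
            rw [hτ]
            ext χ
            simp only [Rd.fl, Set.mem_sdiff, Set.mem_insert_iff, Set.mem_singleton_iff]
            constructor
            · rintro ⟨h2 | h2, h3⟩
              · exact absurd (h2 ▸ hψz') h3
              · exact ⟨⟨h2.1, h3⟩, h2.2⟩
            · rintro ⟨⟨h2, h3⟩, h4⟩
              exact ⟨Or.inr ⟨h2, h4⟩, h3⟩
          obtain ⟨γ, hγ, hγz⟩ := ih (L.τ a y') (by
            intro χ hχ hχz
            have h2 : χ ∈ (y'.1 \ D.act n.1 x) \ {ψ} := by rw [← hset]; exact ⟨hχ, hχz⟩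
            obtain ⟨h3, h4⟩ := hy' χ h2.1.1 hχz
            refine ⟨?_, h4⟩
            rw [hτ]
            exact ((hVX3 D y'.1 y'.2.1 ψ χ).2.1 hψm h3 (hAcr ψ hψA χ h4 (Ne.symm h2.2))).1)
            (by
              have hmem : ψ ∈ y'.1 \ D.act n.1 x := ⟨hψy, hψz⟩
              rw [hset, Set.ncard_sdiff_singleton_of_mem hmem, hcard]
              rfl)
          have hga : rg (D.lg H) a ∈ rsub (D.lg H) {a | ∃ ψ ∈ A, ψ ∈ a.1} :=
            Subgroup.subset_closure ⟨a, ⟨ψ, hψA, lab_self D H ψ⟩, rfl⟩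
          refine ⟨rg (D.lg H) a * γ, mul_mem hga hγ, ?_⟩
          rw [LS.r_mul, LS.r_rg]
          exact hγz
      obtain ⟨γ, hγ, hγz⟩ := claim _ ⟨x, hx⟩ (fun ψ hψ hψz => by
        have h1 := hxA ψ hψ hψz
        exact ⟨(hAmn ψ h1).1, h1⟩) rfl
      exact ⟨γ, hγ, Subtype.ext hγz.symm⟩
  have key := hSMT (D.Lb H) (D.lg H) (D.YT J) L N p N0 c' κ' 𝓜
    (by
      rintro n a b' ⟨hab, φ, hφ, ψ, hψ, h⟩
      refine ⟨?_, D.ρ n.1 φ, ⟨φ, hφ, rfl⟩, D.ρ n.1 ψ, ⟨ψ, hψ, rfl⟩, by rw [Binv]; exact h⟩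
      intro h1
      exact hab (MulAction.injective n h1))
    (by
      intro n a y
      apply Subtype.ext
      exact y4a n.1 n.2 a (n • a) rfl y (n • y) rfl)
    (by
      intro m hm a
      apply Subtype.ext
      obtain ⟨φ, hφ, ha⟩ := a.2
      rw [hsmul1, ha, lab_image D H hDeep.nor]
      exact (lab_eq D H ⟨m.1, hm, Or.inl rfl⟩).symm)
    (by
      intro m m' h
      have h1 : (⟨m.1.1, Subgroup.mem_subgroupOf.1 m.2⟩ : H) =
        ⟨m'.1.1, Subgroup.mem_subgroupOf.1 m'.2⟩ := hcinj h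
      have h2 : m.1.1 = m'.1.1 := by
        have h3 := Subtype.ext_iff.1 h1
        exact h3
      exact Subtype.ext (Subtype.ext h2))
    (by
      intro m hm h
      apply Subtype.ext
      exact hDeep.tf m.1 hm 2 (by norm_num) (congrArg Subtype.val h))
    (by
      intro a y h
      have h1 : ∃ φ, D.Mn y.1 φ ∧ φ ∈ a.1 ∧ D.YJ J (D.fl y.1 φ) := by
        by_contra hcon
        push Not at hcon
        exact h ((hL a y).2 (fun φ h1 h2 => hcon φ h1 h2))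
      obtain ⟨φ, h1, h2, h3⟩ := h1
      have h4 := (hL a y).1 φ h1 h2 h3
      have h5 := (hL' a ⟨y.1, y.2.1⟩).1 φ h1 h2
      have h6 : (⟨(L.τ a y).1, (L.τ a y).2.1⟩ : D.X) = L'.τ a ⟨y.1, y.2.1⟩ :=
        Subtype.ext (h4.trans h5.symm)
      change κ ⟨(L.τ a y).1, (L.τ a y).2.1⟩ = κ ⟨y.1, y.2.1⟩ * rg (D.lg H) a
      rw [h6]
      refine hdev.step a _ fun h7 => h ?_
      apply Subtype.ext
      rw [h4, ← h5, h7])
    (by
      intro m y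
      exact hdev.hol ⟨m.1.1, Subgroup.mem_subgroupOf.1 m.2⟩ ⟨y.1, y.2.1⟩ _ rfl)
    y4b ⟨⟨D.Ps, y1a⟩⟩
    (by
      rintro _ ⟨K', hK'H, hK'n, hK'f, rfl⟩
      refine ⟨Subgroup.comap_mono hK'H, hK'n.comap _, ?_⟩
      obtain ⟨P, hP, -, hPc⟩ := hYJ3 D hAF J hJ K' hK'f
      refine ⟨{y | y.1 ∈ P}, hP.preimage (Subtype.val_injective.injOn), fun y => ?_⟩
      obtain ⟨m, hm, hmN, hmP⟩ := hPc y.1 y.2
      exact ⟨⟨m, hmN⟩, hm, hmP⟩)
    (by
      rintro _ ⟨K', hK'H, hK'n, hK'f, rfl⟩ MC hMCn hMCf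
      have hHf := hDeep.fin
      have hTf : ((MC.comap c).map H.subtype).FiniteIndex := by
        constructor
        rw [Subgroup.index_map_subtype]
        refine mul_ne_zero ?_ Subgroup.FiniteIndex.index_ne_zero
        rw [Subgroup.index_comap]
        exact ne_zero_of_dvd_ne_zero hMCf.index_ne_zero
          (Subgroup.relIndex_dvd_index_of_normal MC c.range)
      refine ⟨(((MC.comap c).map H.subtype).normalCore ⊓ K').subgroupOf N,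
        ⟨_, inf_le_right.trans hK'H, inferInstance, inferInstance, rfl⟩,
        Subgroup.comap_mono inf_le_right, ?_⟩
      intro m hm
      have h1 : m.1.1 ∈ (MC.comap c).map H.subtype :=
        Subgroup.normalCore_le _ (Subgroup.mem_subgroupOf.1 hm).1
      obtain ⟨h, hh, hhm⟩ := h1
      have h2 : h = ⟨m.1.1, Subgroup.mem_subgroupOf.1 m.2⟩ := Subtype.ext hhm
      rw [h2] at hh
      exact hh)
    (M.subgroupOf N) ⟨M, hMH, hMn, hMf, rfl⟩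
  obtain ⟨_, ⟨M1, hM1H, hM1n, hM1f, rfl⟩, hkey⟩ := key
  refine ⟨M1, hM1H, hM1n, hM1f, ?_⟩
  intro n hn m hm hmN hnp hmnp
  have e1 : (⟨n, hn⟩ : N) ^ p = 1 := Subtype.ext hnp
  have e2 : ((⟨m, hmN⟩ : N) * ⟨n, hn⟩) ^ p = 1 := Subtype.ext hmnp
  obtain ⟨m0, hm0, h⟩ := hkey ⟨n, hn⟩ ⟨m, hmN⟩ hm e1 e2 (hfix _ e1) (hfix _ e2)
  exact ⟨m0.1, hm0, m0.2, congrArg Subtype.val h⟩

end Pool.CS
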