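import Pool.Agent.Work.MP_64ea0f_cs.InterfaceC

set_option autoImplicit false

/-! # Block C_ADJ: intersections of stars -/

namespace Pool.CS

namespace C_ADJ

variable {Λ : Type} {G : SimpleGraph Λ}

lemma rsub_induction {I : Set Λ} {p : RC G → Prop} {x : RC G} (hx : x ∈ rsub G I)
    (h1 : p 1) (h2 : ∀ a ∈ I, p (rg G a)) (h3 : ∀ x y, p x → p y → p (x * y))
    (h4 : ∀ x, p x → p x⁻¹) : p x := by
  unfold rsub at hx
  induction hx using Subgroup.closure_induction with
  | mem x hx =>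
    obtain ⟨a, ha, rfl⟩ := hx
    exact h2 a ha
  | one => exact h1
  | mul x y _ _ hx hy => exact h3 x y hx hy
  | inv x _ hx => exact h4 x hx

lemma rg_mem {I : Set Λ} {a : Λ} (h : a ∈ I) : rg G a ∈ rsub G I :=
  Subgroup.subset_closure ⟨a, h, rfl⟩

lemma rret_fix {I : Set Λ} {x : RC G} (hx : x ∈ rsub G I) : rret G I x = x := by
  refine rsub_induction (p := fun x => rret G I x = x) hx (map_one _) ?_ ?_ ?_
  · intro a ha
    exact rret_rg_mem G ha
  · intro x y hx hy
    rw [map_mul, hx, hy]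
  · intro x hx
    rw [map_inv, hx]

lemma rret_mem {I : Set Λ} (J : Set Λ) {x : RC G} (hx : x ∈ rsub G I) :
    rret G J x ∈ rsub G (J ∩ I) := by
  refine rsub_induction (p := fun x => rret G J x ∈ rsub G (J ∩ I)) hx ?_ ?_ ?_ ?_
  · rw [map_one]; exact one_mem _
  · intro a ha
    by_cases h : a ∈ J
    · rw [rret_rg_mem G h]
      exact rg_mem ⟨h, ha⟩
    · rw [rret_rg_not G h]
      exact one_mem _
  · intro x y hx hy
    rw [map_mul]
    exact mul_mem hx hy
  · intro x hx
    rw [map_inv]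
    exact inv_mem hx

lemma comm_rg {I : Set Λ} {t : Λ} (h : ∀ b ∈ I, b ∈ star G t) {x : RC G} (hx : x ∈ rsub G I) :
    x * rg G t = rg G t * x := by
  refine rsub_induction (p := fun x => x * rg G t = rg G t * x) hx ?_ ?_ ?_ ?_
  · rw [one_mul, mul_one]
  · intro a ha
    rcases h a ha with h1 | h1
    · rw [h1]
    · exact (rg_comm h1).symm
  · intro x y hx hy
    rw [mul_assoc, hy, ← mul_assoc, hx, mul_assoc]
  · intro x hx
    rw [inv_mul_eq_iff_eq_mul, ← mul_assoc, hx, mul_assoc, mul_inv_cancel, mul_one]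

lemma comm_wp {I : Set Λ} {l : List Λ} (h : ∀ b ∈ I, ∀ t ∈ l, b ∈ star G t) {x : RC G}
    (hx : x ∈ rsub G I) (w : List Λ) (hw : ∀ t ∈ w, t ∈ l) : x * wp G w = wp G w * x := by
  induction w with
  | nil => rw [wp_nil, mul_one, one_mul]
  | cons t w ih =>
    have h1 := comm_rg (t := t) (fun b hb => h b hb t (hw t (List.mem_cons_self))) hx
    have h2 := ih (fun s hs => hw s (List.mem_cons_of_mem _ hs))
    rw [wp_cons, ← mul_assoc, h1, mul_assoc, h2, mul_assoc]

end C_ADJ

open C_ADJ in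
/-- **C_ADJ** -/
theorem c_adj_thm : Stmt_C_ADJ := by
  intro Λ G M _ hM l u hu
  suffices h : ∃ x ∈ rsub G {b | ∀ t ∈ l, b ∈ star G t},
      (QuotientGroup.mk x : RC G ⧸ M) = u by
    obtain ⟨x, hx, hxu⟩ := h
    exact ⟨x, hx, hxu, fun w hw => comm_wp (fun b hb => hb) hx w hw⟩
  induction l with
  | nil =>
    obtain ⟨x, rfl⟩ := QuotientGroup.mk_surjective u
    refine ⟨x, ?_, rfl⟩
    induction x using rac_induction with
    | h1 => exact one_mem _
    | h2 a c ih => exact mul_mem (rg_mem (by simp)) (ih (by simp))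
  | cons t l ih =>
    obtain ⟨x', hx', hxu'⟩ := ih (fun s hs => hu s (List.mem_cons_of_mem _ hs))
    obtain ⟨y, hy, hyu⟩ := hu t List.mem_cons_self
    have hm : y⁻¹ * x' ∈ M := QuotientGroup.eq.1 (hyu.trans hxu'.symm)
    have h1 := hM {b | ∀ s ∈ l, b ∈ star G s} _ hm
    rw [map_mul, map_inv, rret_fix hx'] at h1
    refine ⟨rret G {b | ∀ s ∈ l, b ∈ star G s} y, ?_, ?_⟩
    · have h2 := rret_mem {b | ∀ s ∈ l, b ∈ star G s} hy
      refine Subgroup.closure_mono (Set.image_mono ?_) h2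
      rintro b ⟨hb1, hb2⟩ s hs
      rcases List.mem_cons.1 hs with rfl | hs
      · exact hb2
      · exact hb1 s hs
    · rw [← hxu']
      exact QuotientGroup.eq.2 h1

end Pool.CS
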