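import Pool.Agent.Work.MP_64ea0f_cs.InterfaceC

set_option autoImplicit false

/-! # Block C_AXA: translation lengths of powers -/

namespace Pool.CS

/-- **C_AXA** -/
theorem c_axa_thm : Stmt_C_ACT → Stmt_C_RUN → Stmt_C_FOL → Stmt_C_PTH → Stmt_C_SYM →
    Stmt_C_SYR → Stmt_C_LCA → Stmt_C_CN2 → Stmt_C_WRD → Stmt_C_AXA := by
  intro hACT hRUN hFOL hPTH hSYM hSYR hLCA hCN2 hWRD Λ _ G H hiso n b l hl
  have hact := hACT Λ G H (⊤ : Subgroup (RC G))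
  set L : LS G (H.X (⊤ : Subgroup (RC G))) := ⟨fun t x => H.step ⊤ t x, hact.1, hact.2⟩ with hL
  have hLτ : ∀ t x, L.τ t x = H.step ⊤ t x := fun t x => rfl
  have hsub : Subsingleton (RC G ⧸ (⊤ : Subgroup (RC G))) :=
    QuotientGroup.subsingleton_quotient_top
  have hOk : ∀ t (u : RC G ⧸ (⊤ : Subgroup (RC G))), Ok ⊤ t u :=
    fun t u => ⟨1, one_mem _, Subsingleton.elim _ _⟩
  obtain ⟨-, l2, l3, -, l5, l6, -, -, l9⟩ := hLCA Λ G H
  set x0 : H.X (⊤ : Subgroup (RC G)) :=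
    (⟨Per.D0, H.cut_D0⟩, (QuotientGroup.mk 1 : RC G ⧸ (⊤ : Subgroup (RC G)))) with hx0
  have hword : (L.r x0 (wp G H.word)).1.1 = H.sh H.one Per.D0 := by
    have h1 := (hFOL Λ G H ⊤ L hLτ Per.D0 (H.tr Per.D0) H.word (hWRD Λ G H) x0 rfl
      (fun t _ => hOk t _)).1
    rw [h1, l9 hiso]
  have hpow : ∀ n : ℕ, (L.r x0 (wp G H.word ^ n)).1.1 = H.sh (n • H.one) Per.D0 := by
    intro n
    induction n with
    | zero =>
      rw [pow_zero, LS.r_one, zero_smul, l5]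
    | succ n ih =>
      rw [pow_succ', LS.r_mul]
      have h1 := (hSYR Λ G H (H.sh H.one) ((hSYM Λ G H).1 _ l2) ⊤ L hLτ (wp G H.word ^ n) x0
        (L.r x0 (wp G H.word)) hword (Subsingleton.elim _ _)).1
      rw [h1, ih, (l3 _ _ l2 (l6 n _ l2)).2, succ_nsmul, add_comm]
  set x1 := L.r x0 b⁻¹ with hx1
  have hend : (L.r x1 (wp G l)).1.1 = H.sh (n • H.one) x1.1.1 := by
    have h1 : L.r x1 (wp G l) = L.r (L.r x0 (wp G H.word ^ n)) b⁻¹ := by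
      rw [hx1, ← LS.r_mul, hl, ← LS.r_mul]
      congr 1
      group
    rw [h1]
    exact (hSYR Λ G H (H.sh (n • H.one)) ((hSYM Λ G H).1 _ (l6 n _ l2)) ⊤ L hLτ b⁻¹ x0
      (L.r x0 (wp G H.word ^ n)) (hpow n) (Subsingleton.elim _ _)).1
  obtain ⟨p, hp1, hp2, -⟩ := hRUN Λ G H ⊤ L hLτ l x1
  rw [hend] at hp2
  have h3 := (hPTH Λ G H _ _ _ hp2).2.2.2.1
  have h4 := (hCN2 Λ G H x1.1.1 x1.1.2).1 hiso n
  exact h4.trans (h3.trans hp1.length_le)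

end Pool.CS
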