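import Pool.Agent.Work.MP_64ea0f_cs.InterfaceA

set_option autoImplicit false

/-! # Block IMC: the imaginary cone -/

namespace Pool.CS

namespace IMC

variable (D : Rd)

lemma B_e (u : D.V) (t : D.S) : D.B u (D.e t) = ∑ s, u s * D.k s t := by
  unfold Rd.B bform Rd.e
  refine Finset.sum_congr rfl fun s _ => ?_
  rw [Finset.sum_eq_single t]
  · simp
  · intro b _ hb
    simp [Pi.single_eq_of_ne hb]
  · intro h
    exact absurd (Finset.mem_univ t) h

lemma B_sum (u v : D.V) : D.B u v = ∑ t, v t * D.B u (D.e t) := by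
  simp only [B_e]
  unfold Rd.B bform
  rw [Finset.sum_comm]
  refine Finset.sum_congr rfl fun t _ => ?_
  rw [Finset.mul_sum]
  refine Finset.sum_congr rfl fun s _ => ?_
  ring

lemma B_nonpos {u v : D.V} (hu : ∀ s, D.B u (D.e s) ≤ 0) (hv : ∀ s, 0 ≤ v s) : D.B u v ≤ 0 := by
  rw [B_sum]
  exact Finset.sum_nonpos fun t _ => mul_nonpos_of_nonneg_of_nonpos (hv t) (hu t)

lemma ht_nonneg {v : D.V} (hv : ∀ s, 0 ≤ v s) : 0 ≤ D.ht v :=
  Finset.sum_nonneg fun s _ => hv s

lemma ht_add (v w : D.V) : D.ht (v + w) = D.ht v + D.ht w := by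
  simp [Rd.ht, Finset.sum_add_distrib]

lemma ht_refl (s : D.S) (v : D.V) :
    D.ht (D.ρ (D.σ s) v) = D.ht v - 2 * D.B v (D.e s) := by
  have h1 : D.ρ (D.σ s) v = v - (2 * D.B v (D.e s)) • D.e s := D.refl s v
  rw [h1]
  simp [Rd.ht, Rd.e, Finset.sum_sub_distrib, ← Finset.mul_sum]

end IMC

open IMC in
/-- **IMC** -/
theorem imc_thm : Stmt_BAS → Stmt_SGN → Stmt_LEN → Stmt_HGT → Stmt_IMC := by
  intro hBAS hSGN hLEN hHGT D
  obtain ⟨bsymm, blin, be, -, binv, b1, eRt, ρRt, -, -, -, -, -, -, -, -⟩ := hBAS D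
  obtain ⟨s1, s2, s3, s4, s5, -, -, -, -⟩ := hSGN D
  obtain ⟨-, l2, -, -, l5, l6, -⟩ := hLEN D
  have hρρ : ∀ s, D.σ s * D.σ s = 1 := by
    obtain ⟨-, -, -, -, -, -, -, -, -, -, hr, -, -, hrs, -, -⟩ := hBAS D
    intro s
    have := hr (D.e s) (eRt s)
    rwa [hrs] at this
  have hcons : ∀ w s, D.ρ (w * D.σ s * D.σ s) = D.ρ w := by
    intro w s
    rw [mul_assoc, hρρ, mul_one]
  have badd : ∀ u v w : D.V, D.B (u + v) w = D.B u w + D.B v w := by
    intro u v w
    have := blin 1 1 u v w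
    simpa using this
  refine ⟨?_, ?_, ?_⟩
  · intro φ hφ ψ hψ hb
    set P : Set (D.V × D.V) := {p | p.1 ∈ D.Ps ∧ p.2 ∈ D.Ps ∧ D.ht p.1 + D.ht p.2 ≤ D.ht φ + D.ht ψ ∧
      ∃ w, p.1 = D.ρ w φ ∧ p.2 = D.ρ w ψ} with hP
    have hfin : P.Finite := by
      refine ((hHGT D (D.ht φ + D.ht ψ)).prod (hHGT D (D.ht φ + D.ht ψ))).subset ?_
      rintro ⟨a, b⟩ ⟨ha, hb, hab, -⟩
      have h1 := ht_nonneg D ha.2
      have h2 := ht_nonneg D hb.2
      simp only at hab h1 h2
      exact ⟨⟨ha, by linarith⟩, ⟨hb, by linarith⟩⟩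
    have hne : P.Nonempty := ⟨(φ, ψ), hφ, hψ, le_rfl, 1, by simp, by simp⟩
    obtain ⟨⟨a, b⟩, ⟨ha, hbP, hab, w, hwa, hwb⟩, hmin⟩ :=
      Set.exists_min_image P (fun p => D.ht p.1 + D.ht p.2) hfin hne
    simp only at ha hbP hab hwa hwb hmin
    have hsum : D.ρ w (φ + ψ) = a + b := by rw [map_add, ← hwa, ← hwb]
    refine ⟨w, by rw [← hwa]; exact ha, by rw [← hwb]; exact hbP, ?_, ?_⟩
    · intro s
      rw [hsum]
      exact add_nonneg (ha.2 s) (hbP.2 s)
    · intro s
      rw [hsum]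
      by_contra hpos
      push Not at hpos
      have hBab : D.B a b ≤ -1 := by rw [hwa, hwb, binv]; exact hb
      by_cases has : a = D.e s
      · rw [badd, has, b1 _ (eRt s), bsymm b, ← has] at hpos
        linarith
      by_cases hbs : b = D.e s
      · rw [badd, hbs, b1 _ (eRt s), ← hbs] at hpos
        linarith
      have ha' := s5 s a ha has
      have hb' := s5 s b hbP hbs
      have hht : D.ht (D.ρ (D.σ s) a) + D.ht (D.ρ (D.σ s) b) < D.ht a + D.ht b := by
        rw [ht_refl, ht_refl]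
        rw [badd] at hpos
        linarith
      have := hmin (D.ρ (D.σ s) a, D.ρ (D.σ s) b) ⟨ha', hb', by simp only; linarith,
        D.σ s * w, by simp only; rw [map_mul, Module.End.mul_apply, hwa],
        by simp only; rw [map_mul, Module.End.mul_apply, hwb]⟩
      simp only at this
      linarith
  · intro v hv
    have key : ∀ n w, D.len w = n → ∀ s, v s ≤ D.ρ w v s := by
      intro n
      induction n with
      | zero =>
        intro w hw s
        rw [(l2 w).1 hw]
        simp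
      | succ n ih =>
        intro w hw s
        have hw1 : w ≠ 1 := by
          intro h
          rw [(l2 w).2 h] at hw
          omega
        obtain ⟨s0, hs0⟩ := l6 w hw1
        have hlen := l5 w s0 hs0
        have h1 := ih (w * D.σ s0) (by omega) s
        have hneg : -D.ρ w (D.e s0) ∈ D.Ps := (s1 _ (ρRt _ (eRt s0) w)).resolve_left hs0
        have h2 : D.ρ (w * D.σ s0) v = D.ρ w v + (2 * D.B v (D.e s0)) • (-D.ρ w (D.e s0)) := by
          rw [map_mul, Module.End.mul_apply]
          have h3 : D.ρ (D.σ s0) v = v - (2 * D.B v (D.e s0)) • D.e s0 := D.refl s0 v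
          rw [h3, map_sub, map_smul, smul_neg, sub_eq_add_neg]
        rw [h2] at h1
        simp only [Pi.add_apply, Pi.smul_apply, smul_eq_mul] at h1
        have h4 := hneg.2 s
        have h5 := hv.2 s0
        nlinarith [mul_nonneg (neg_nonneg.2 h5) h4]
    intro w s
    exact key _ w rfl s
  · intro v hv
    have key : ∀ n w, D.len w = n → D.ρ w v ∈ D.Kc →
        D.ρ w v = v ∧ w ∈ D.par {s | D.B v (D.e s) = 0} := by
      intro n
      induction n with
      | zero =>
        intro w hw _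
        rw [(l2 w).1 hw]
        exact ⟨by simp, one_mem _⟩
      | succ n ih =>
        intro w hw hK
        have hw1 : w ≠ 1 := by
          intro h
          rw [(l2 w).2 h] at hw
          omega
        obtain ⟨s0, hs0⟩ := l6 w hw1
        have hlen := l5 w s0 hs0
        have hneg : -D.ρ w (D.e s0) ∈ D.Ps := (s1 _ (ρRt _ (eRt s0) w)).resolve_left hs0
        have h1 : D.B (D.ρ w v) (-D.ρ w (D.e s0)) ≤ 0 := B_nonpos D hK.2 hneg.2
        have h2 : D.B (D.ρ w v) (-D.ρ w (D.e s0)) = -D.B v (D.e s0) := by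
          rw [bsymm, ← binv w v, bsymm (D.ρ w v)]
          have := blin (-1) 0 (D.ρ w (D.e s0)) 0 (D.ρ w v)
          simpa using this
        have h0 : D.B v (D.e s0) = 0 := le_antisymm (hv.2 s0) (by linarith)
        have hfix : D.ρ (D.σ s0) v = v := by
          have h3 : D.ρ (D.σ s0) v = v - (2 * D.B v (D.e s0)) • D.e s0 := D.refl s0 v
          rw [h3, h0]
          simp
        have h4 : D.ρ (w * D.σ s0) v = D.ρ w v := by
          rw [map_mul, Module.End.mul_apply, hfix]
        obtain ⟨h5, h6⟩ := ih (w * D.σ s0) (by omega) (by rw [h4]; exact hK)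
        refine ⟨by rw [← h4, h5], ?_⟩
        have h7 : w = w * D.σ s0 * D.σ s0 := by rw [mul_assoc, hρρ, mul_one]
        rw [h7]
        exact mul_mem h6 (Subgroup.subset_closure ⟨s0, h0, rfl⟩)
    intro w hK
    exact key _ w rfl hK

end Pool.CS
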