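import Pool.Agent.Work.MP_64ea0f_cs.InterfaceA

set_option autoImplicit false

/-! # Block NRM: normalisers of parabolic subgroups -/

namespace Pool.CS

/-- **NRM** -/
theorem nrm_thm : Stmt_BAS → Stmt_SGN → Stmt_LEN → Stmt_PAR → Stmt_NRM := by
  intro hBAS hSGN hLEN hPAR D J
  obtain ⟨-, -, -, -, -, -, eRt, ρRt, negRt, -, rsq, rconj, rneg, rsimple, -, -⟩ := hBAS D
  obtain ⟨s1, s2, -, s4, s5, -, -, -, -⟩ := hSGN D
  obtain ⟨l1, l2, -, -, -, -, -⟩ := hLEN D
  obtain ⟨p1, -, -, p4, p5, -⟩ := hPAR D J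
  have hinv1 : ∀ w v, D.ρ w⁻¹ (D.ρ w v) = v := by
    intro w v
    rw [← Module.End.mul_apply, ← map_mul, inv_mul_cancel, map_one, Module.End.one_apply]
  have hinv2 : ∀ w v, D.ρ w (D.ρ w⁻¹ v) = v := by
    intro w v
    rw [← Module.End.mul_apply, ← map_mul, mul_inv_cancel, map_one, Module.End.one_apply]
  have hmul : ∀ w w' v, D.ρ (w * w') v = D.ρ w (D.ρ w' v) := by
    intro w w' v
    rw [map_mul, Module.End.mul_apply]
  have hIn : ∀ v, D.In J (-v) ↔ D.In J v := by
    intro v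
    simp [Rd.In]
  -- `w` permutes the roots supported in `J`
  have hperm : ∀ w, (D.par J).map (MulAut.conj w).toMonoidHom = D.par J →
      ∀ φ ∈ D.Rt, D.In J φ → D.In J (D.ρ w φ) := by
    intro w hw φ hφ hφJ
    apply p5 _ (ρRt φ hφ w)
    rw [rconj φ hφ w, ← hw]
    exact ⟨D.rf φ, p4 φ hφ hφJ, by simp [MulAut.conj_apply]⟩
  have hpermc : ∀ w, (D.par J).map (MulAut.conj w).toMonoidHom = D.par J →
      (D.par J).map (MulAut.conj w⁻¹).toMonoidHom = D.par J := by
    intro w hw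
    ext x
    constructor
    · rintro ⟨y, hy, rfl⟩
      have hy' : y ∈ (D.par J).map (MulAut.conj w).toMonoidHom := by rw [hw]; exact hy
      obtain ⟨z, hz, rfl⟩ := hy'
      have : (MulAut.conj w⁻¹).toMonoidHom ((MulAut.conj w).toMonoidHom z) = z := by
        simp [MulAut.conj_apply, mul_assoc]
      rw [this]
      exact hz
    · intro hx
      refine ⟨w * x * w⁻¹, ?_, by simp [mul_assoc]⟩
      have : w * x * w⁻¹ ∈ (D.par J).map (MulAut.conj w).toMonoidHom := ⟨x, hx, by simp⟩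
      rw [hw] at this
      exact this
  -- the induction
  have key : ∀ n, ∀ w, (∀ φ ∈ D.Rt, D.In J φ → D.In J (D.ρ w φ)) →
      (∀ φ ∈ D.Rt, D.In J φ → D.In J (D.ρ w⁻¹ φ)) →
      {φ | φ ∈ D.Ps ∧ D.In J φ ∧ D.ρ w φ ∉ D.Ps}.ncard = n → ∃ p ∈ D.par J, p * w ∈ D.NJ J := by
    intro n
    induction n with
    | zero =>
      intro w hw hw' hcard
      have hfin : {φ | φ ∈ D.Ps ∧ D.In J φ ∧ D.ρ w φ ∉ D.Ps}.Finite :=
        (l1 w).subset fun φ hφ => ⟨hφ.1, hφ.2.2⟩
      have hempty := (Set.ncard_eq_zero hfin).1 hcard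
      have hpos : ∀ φ, φ ∈ D.Ps → D.In J φ → D.ρ w φ ∈ D.Ps := by
        intro φ h1 h2
        by_contra h3
        have : φ ∈ {φ | φ ∈ D.Ps ∧ D.In J φ ∧ D.ρ w φ ∉ D.Ps} := ⟨h1, h2, h3⟩
        rw [hempty] at this
        exact this
      refine ⟨1, one_mem _, ?_⟩
      rw [one_mul]
      intro φ
      constructor
      · rintro ⟨h1, h2⟩
        exact ⟨hpos φ h1 h2, hw φ h1.1 h2⟩
      · rintro ⟨h1, h2⟩
        have h3 : D.In J φ := by
          have := hw' _ h1.1 h2
          rwa [hinv1] at this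
        have h4 : φ ∈ D.Rt := by
          have := ρRt _ h1.1 w⁻¹
          rwa [hinv1] at this
        refine ⟨?_, h3⟩
        rcases s1 φ h4 with h5 | h5
        · exact h5
        · exfalso
          have h6 := hpos _ h5 ((hIn φ).2 h3)
          rw [map_neg] at h6
          exact s2 _ h1 h6
    | succ n ih =>
      intro w hw hw' hcard
      have hfin : {φ | φ ∈ D.Ps ∧ D.In J φ ∧ D.ρ w φ ∉ D.Ps}.Finite :=
        (l1 w).subset fun φ hφ => ⟨hφ.1, hφ.2.2⟩
      have hne : {φ | φ ∈ D.Ps ∧ D.In J φ ∧ D.ρ w φ ∉ D.Ps}.Nonempty := by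
        rw [← Set.ncard_pos hfin]
        omega
      obtain ⟨φ, h1, h2, h3⟩ := hne
      -- a simple root of `J` sent to a negative root by `w⁻¹`
      have hψ : -D.ρ w φ ∈ D.Ps := (s1 _ (ρRt _ h1.1 w)).resolve_left h3
      have hψJ : D.In J (-D.ρ w φ) := (hIn _).2 (hw φ h1.1 h2)
      have hsimple : ∃ s ∈ J, D.ρ w⁻¹ (D.e s) ∉ D.Ps := by
        by_contra hcon
        push Not at hcon
        have h4 : ∀ t, 0 ≤ D.ρ w⁻¹ (-D.ρ w φ) t := by
          intro t
          have h5 : (-D.ρ w φ : D.V) = ∑ s, (-D.ρ w φ) s • D.e s := by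
            ext u
            rw [Finset.sum_apply, Finset.sum_eq_single u]
            · simp [Rd.e]
            · intro b _ hb
              simp [Rd.e, Pi.single_eq_of_ne hb.symm]
            · intro h; exact absurd (Finset.mem_univ u) h
          rw [h5, map_sum, Finset.sum_apply]
          refine Finset.sum_nonneg fun s _ => ?_
          rw [map_smul, Pi.smul_apply, smul_eq_mul]
          by_cases hs : s ∈ J
          · exact mul_nonneg (hψ.2 s) ((hcon s hs).2 t)
          · rw [hψJ s hs, zero_mul]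
        have h6 : D.ρ w⁻¹ (-D.ρ w φ) ∈ D.Ps := ⟨ρRt _ hψ.1 _, h4⟩
        rw [map_neg, hinv1] at h6
        exact s2 _ h1 h6
      obtain ⟨s, hsJ, hs⟩ := hsimple
      have hβ : -D.ρ w⁻¹ (D.e s) ∈ D.Ps := (s1 _ (ρRt _ (eRt s) w⁻¹)).resolve_left hs
      have heJ : D.In J (D.e s) := by
        intro t ht
        have : t ≠ s := by rintro rfl; exact ht hsJ
        simp [Rd.e, Pi.single_eq_of_ne this]
      have hσJ : D.σ s ∈ D.par J := Subgroup.subset_closure ⟨s, hsJ, rfl⟩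
      have hσs : D.ρ (D.σ s) (D.e s) = - D.e s := by
        have h3 : D.ρ (D.σ s) (D.e s) = D.e s - (2 * D.B (D.e s) (D.e s)) • D.e s :=
          D.refl s (D.e s)
        obtain ⟨-, -, -, -, -, b1, -⟩ := hBAS D
        rw [h3, b1 _ (eRt s)]
        module
      have hσinv : (D.σ s)⁻¹ = D.σ s := by
        have := rsq _ (eRt s)
        rw [rsimple] at this
        exact inv_eq_of_mul_eq_one_left this
      -- roots supported in `J` are preserved by `σ_s`
      have hσ1 : ∀ ψ, D.In J ψ → D.In J (D.ρ (D.σ s) ψ) := by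
        intro ψ hψ t ht
        have h3 : D.ρ (D.σ s) ψ = ψ - (2 * D.B ψ (D.e s)) • D.e s := D.refl s ψ
        rw [h3, Pi.sub_apply, Pi.smul_apply, hψ t ht, heJ t ht]
        simp
      have hset : {φ | φ ∈ D.Ps ∧ D.In J φ ∧ D.ρ (D.σ s * w) φ ∉ D.Ps} =
          {φ | φ ∈ D.Ps ∧ D.In J φ ∧ D.ρ w φ ∉ D.Ps} \ {-D.ρ w⁻¹ (D.e s)} := by
        ext χ
        simp only [Set.mem_ofPred_eq, Set.mem_sdiff, Set.mem_singleton_iff, hmul]
        constructor
        · rintro ⟨g1, g2, g3⟩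
          refine ⟨⟨g1, g2, ?_⟩, ?_⟩
          · intro g4
            by_cases g5 : D.ρ w χ = D.e s
            · have g6 : χ = D.ρ w⁻¹ (D.e s) := by rw [← g5, hinv1]
              exact hs (g6 ▸ g1)
            · exact g3 (s5 s _ g4 g5)
          · intro g4
            apply g3
            rw [g4, map_neg, hinv2, map_neg, hσs, neg_neg]
            exact s4 s
        · rintro ⟨⟨g1, g2, g3⟩, g4⟩
          refine ⟨g1, g2, ?_⟩
          intro g5
          have g6 : -D.ρ w χ ∈ D.Ps := (s1 _ (ρRt _ g1.1 w)).resolve_left g3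
          by_cases g7 : -D.ρ w χ = D.e s
          · apply g4
            rw [← g7, map_neg, hinv1, neg_neg]
          · have g8 := s5 s _ g6 g7
            rw [map_neg] at g8
            exact s2 _ g5 g8
      have hmem : -D.ρ w⁻¹ (D.e s) ∈ {φ | φ ∈ D.Ps ∧ D.In J φ ∧ D.ρ w φ ∉ D.Ps} := by
        refine ⟨hβ, (hIn _).2 (hw' _ (eRt s) heJ), ?_⟩
        rw [map_neg, hinv2]
        exact s2 _ (s4 s)
      have hcard' : {φ | φ ∈ D.Ps ∧ D.In J φ ∧ D.ρ (D.σ s * w) φ ∉ D.Ps}.ncard = n := by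
        rw [hset, Set.ncard_sdiff_singleton_of_mem hmem, hcard]
        rfl
      obtain ⟨p, hp, hpw⟩ := ih (D.σ s * w)
        (by intro ψ hψ hψJ; rw [hmul]; exact hσ1 _ (hw ψ hψ hψJ))
        (by
          intro ψ hψ hψJ
          rw [mul_inv_rev, hσinv, hmul]
          exact hw' _ (ρRt _ hψ _) (hσ1 _ hψJ)) hcard'
      exact ⟨p * D.σ s, mul_mem hp hσJ, by rw [mul_assoc]; exact hpw⟩
  have hNinv : ∀ n ∈ D.NJ J, n⁻¹ ∈ D.NJ J := by
    intro n hn φ
    have := hn (D.ρ n⁻¹ φ)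
    rw [hinv2] at this
    exact this.symm
  have hNIn : ∀ n ∈ D.NJ J, ∀ φ ∈ D.Rt, D.In J φ → D.ρ n φ ∈ D.Rt ∧ D.In J (D.ρ n φ) := by
    intro n hn φ hφ hφJ
    refine ⟨ρRt _ hφ n, ?_⟩
    rcases s1 φ hφ with h | h
    · exact ((hn φ).1 ⟨h, hφJ⟩).2
    · have := ((hn (-φ)).1 ⟨h, (hIn φ).2 hφJ⟩).2
      rw [map_neg] at this
      exact (hIn _).1 this
  have hconjle : ∀ n ∈ D.NJ J, ∀ x ∈ D.par J, n * x * n⁻¹ ∈ D.par J := by
    intro n hn x hx
    unfold Rd.par at hx
    induction hx using Subgroup.closure_induction with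
    | mem x hx =>
      obtain ⟨s, hs, rfl⟩ := hx
      have heJ : D.In J (D.e s) := by
        intro t ht
        have : t ≠ s := by rintro rfl; exact ht hs
        simp [Rd.e, Pi.single_eq_of_ne this]
      have h1 := hNIn n hn _ (eRt s) heJ
      have h2 := p4 _ h1.1 h1.2
      rw [rconj _ (eRt s), rsimple] at h2
      exact h2
    | one => simp
    | mul x y hx hy ihx ihy =>
      have h1 := mul_mem ihx ihy
      have h2 : n * (x * y) * n⁻¹ = n * x * n⁻¹ * (n * y * n⁻¹) := by group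
      rw [h2]
      exact h1
    | inv x hx ihx =>
      have h1 := inv_mem ihx
      have h2 : n * x⁻¹ * n⁻¹ = (n * x * n⁻¹)⁻¹ := by group
      rw [h2]
      exact h1
  refine ⟨?_, ?_, ?_, ?_, hNinv, ?_, hNIn⟩
  · intro w hw
    exact key _ w (hperm w hw) (hperm w⁻¹ (hpermc w hw)) rfl
  · intro p hp hpN
    apply (l2 p).1
    have : D.N p = ∅ := by
      ext φ
      constructor
      · intro hφ
        exact (hφ.2 ((hpN φ).1 ⟨hφ.1, (p1 p).1 hp φ hφ⟩).1).elim
      · intro h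
        exact h.elim
    rw [Rd.len, this, Set.ncard_empty]
  · intro n hn
    ext x
    constructor
    · rintro ⟨y, hy, rfl⟩
      exact hconjle n hn y hy
    · intro hx
      refine ⟨n⁻¹ * x * n, ?_, by simp [MulAut.conj_apply, mul_assoc]⟩
      have := hconjle n⁻¹ (hNinv n hn) x hx
      rwa [inv_inv] at this
  · intro φ
    rw [map_one, Module.End.one_apply]
  · intro n hn n' hn' φ
    rw [hmul]
    exact (hn' φ).trans (hn _)

end Pool.CS
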