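import Pool.Agent.Work.MP_64ea0f_cs.InterfaceE

set_option autoImplicit false

/-! # Block YJ3: cofiniteness of the cubing of the intersection of walls -/

namespace Pool.CS

/-- **YJ3** -/
theorem yj3_thm : Stmt_VX1 → Stmt_COF → Stmt_LFN → Stmt_YJ3 := by
  intro hVX1 hCOF hLFN D hAF J _ M hM
  classical
  obtain ⟨-, vact, vone, vmul, -, -, vmn, -, -, -, -⟩ := hVX1 D
  obtain ⟨P0, hP0, hP0X, hP0c⟩ := hCOF D hAF Set.univ
  have hXJ : ∀ x, D.Vx x → D.XJ Set.univ x := by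
    intro x hx
    refine ⟨hx, fun φ _ h => absurd ?_ h⟩
    intro s hs
    exact absurd (Set.mem_univ s) hs
  -- the positive roots supported in `J`
  set PJ : Set D.V := {φ | φ ∈ D.Ps ∧ D.In J φ} with hPJ
  have hw : ∀ x : {x : Set D.V // D.YJ J x}, ∃ w : D.W, D.act w x.1 ∈ P0 := by
    intro x
    obtain ⟨w, -, hw⟩ := hP0c x.1 (hXJ _ x.2.1)
    exact ⟨w, hw⟩
  choose w hw using hw
  set f : {x : Set D.V // D.YJ J x} → Set D.V × Set D.V × (D.W ⧸ M) :=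
    fun x => (D.act (w x) x.1, D.ρ (w x) '' PJ, QuotientGroup.mk (w x)) with hf
  have hfin : (Set.range f).Finite := by
    have hq : Finite (D.W ⧸ M) := Subgroup.finite_quotient_of_finiteIndex
    refine (Set.Finite.biUnion (s := P0) (t := fun x0 =>
      ({x0} : Set (Set D.V)) ×ˢ ((𝒫 {φ | D.Mn x0 φ}) ×ˢ (Set.univ : Set (D.W ⧸ M)))) hP0
      (fun x0 hx0 => ?_)).subset ?_
    · exact (Set.finite_singleton x0).prod
        ((hLFN D hAF x0 (hP0X x0 hx0).1).finite_subsets.prod Set.finite_univ)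
    · rintro _ ⟨x, rfl⟩
      rw [Set.mem_iUnion₂]
      refine ⟨D.act (w x) x.1, hw x, rfl, ?_, Set.mem_univ _⟩
      rintro _ ⟨φ, hφ, rfl⟩
      exact (vmn x.1 x.2.1 (w x) φ).1 (x.2.2 φ hφ.1 hφ.2)
  have hρ : ∀ v u : D.W, ∀ φ, D.ρ (v * u) φ = D.ρ v (D.ρ u φ) := by
    intro v u φ
    rw [map_mul, Module.End.mul_apply]
  have hρinv : ∀ (v : D.W) φ, D.ρ v⁻¹ (D.ρ v φ) = φ := by
    intro v φ
    rw [← hρ, inv_mul_cancel, map_one, Module.End.one_apply]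
  have hsec : ∀ d : Set.range f, ∃ x, f x = d.1 := fun d => d.2
  choose g hg using hsec
  have hfr : Finite (Set.range f) := hfin
  refine ⟨Set.range (fun d : Set.range f => (g d).1), Set.finite_range _, ?_, ?_⟩
  · rintro _ ⟨d, rfl⟩
    exact (g d).2
  · intro x hx
    have h1 := hg ⟨f ⟨x, hx⟩, ⟨_, rfl⟩⟩
    set y := g ⟨f ⟨x, hx⟩, ⟨_, rfl⟩⟩ with hy
    simp only [hf, Prod.mk.injEq] at h1
    obtain ⟨e1, e2, e3⟩ := h1
    refine ⟨(w y)⁻¹ * w ⟨x, hx⟩, QuotientGroup.eq.1 e3, ?_,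
      ⟨⟨f ⟨x, hx⟩, ⟨_, rfl⟩⟩, ?_⟩⟩
    · have hset : D.ρ ((w y)⁻¹ * w ⟨x, hx⟩) '' PJ = PJ := by
        have : D.ρ ((w y)⁻¹ * w ⟨x, hx⟩) '' PJ = D.ρ (w y)⁻¹ '' (D.ρ (w ⟨x, hx⟩) '' PJ) := by
          rw [Set.image_image]
          exact Set.image_congr fun φ _ => hρ _ _ _
        rw [this, ← e2, Set.image_image]
        ext φ
        constructor
        · rintro ⟨χ, hχ, rfl⟩
          simp only [hρinv]
          exact hχ
        · intro h
          exact ⟨φ, h, hρinv _ _⟩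
      intro φ
      constructor
      · intro h
        have : D.ρ ((w y)⁻¹ * w ⟨x, hx⟩) φ ∈ PJ := by
          rw [← hset]
          exact ⟨φ, h, rfl⟩
        exact this
      · intro h
        have h2 : D.ρ ((w y)⁻¹ * w ⟨x, hx⟩) φ ∈ PJ := h
        rw [← hset] at h2
        obtain ⟨χ, hχ, hχe⟩ := h2
        have : χ = φ := by
          rw [← hρinv ((w y)⁻¹ * w ⟨x, hx⟩) χ, hχe, hρinv]
        exact this ▸ hχ
    · change y.1 = D.act ((w y)⁻¹ * w ⟨x, hx⟩) x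
      rw [vmul, ← e1, ← vmul, inv_mul_cancel, vone]

end Pool.CS
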